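import Mathlib

/-!
A simple ordered 2-stage graph with two classes of size `N` is a relation `L` on `Fin N`: both
classes are numbered `0, …, N - 1` in their order, and `L s t` says that source `s` is joined to
target `t`. In `L^n` the vertex classes are `n + 1` copies of `Fin N`, consecutive copies being
joined by `L`. The definitions are written for an arbitrary vertex type `V`.
-/

namespace Pool.Agent.P.MP_dc8297_co

variable {V : Type}

/-- Every source and every target of `L` has degree `k`. -/
def IsRegular (L : V → V → Prop) (k : ℕ) : Prop :=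
  (∀ s, {t | L s t}.ncard = k) ∧ ∀ t, {s | L s t}.ncard = k

/-- `p` is a plain path of `L^n`: `p i` is its vertex in the class number `i`. -/
def IsPlainPath (L : V → V → Prop) (n : ℕ) (p : Fin (n + 1) → V) : Prop :=
  ∀ i : Fin n, L (p i.castSucc) (p i.succ)

/-- `L^n` is externally connected. -/
def ExternallyConnected (L : V → V → Prop) (n : ℕ) : Prop :=
  ∀ s t, ∃ p, IsPlainPath L n p ∧ p 0 = s ∧ p (Fin.last n) = t

/-- `L^n` is rearrangeable: for every mask (a multigraph with finite edge set `E`, the edge `e`
joining the source `src e` to the target `tgt e`, with the degrees of `L^n`) there are pairwise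
edge-disjoint plain paths, one for each edge of the mask, with the same ends. -/
def Rearrangeable (L : V → V → Prop) (n : ℕ) : Prop :=
  ∀ (E : Type) [Finite E] (src tgt : E → V),
    (∀ s, {e | src e = s}.ncard = {t | L s t}.ncard) →
    (∀ t, {e | tgt e = t}.ncard = {s | L s t}.ncard) →
    ∃ P : E → Fin (n + 1) → V,
      (∀ e, IsPlainPath L n (P e) ∧ P e 0 = src e ∧ P e (Fin.last n) = tgt e) ∧
      ∀ e e', e ≠ e' → ∀ i : Fin n,
        (P e i.castSucc, P e i.succ) ≠ (P e' i.castSucc, P e' i.succ)

end Pool.Agent.P.MP_dc8297_co
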