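import Pool.Agent.P.MP_dc8297_co.Defs

namespace Pool.Agent.P.MP_dc8297_co

open Function

section transport

variable {V W : Type} (φ : W ≃ V) (L : V → V → Prop)

theorem ncard_comp (p : V → Prop) : {w | p (φ w)}.ncard = {v | p v}.ncard :=
  Set.ncard_preimage_of_injective_subset_range (s := {v | p v}) φ.injective
    (by rw [φ.range_eq_univ]; exact Set.subset_univ _)

theorem IsRegular.pull {k : ℕ} (h : IsRegular L k) : IsRegular (fun a b => L (φ a) (φ b)) k :=
  ⟨fun s => (ncard_comp φ fun t => L (φ s) t).trans (h.1 _),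
    fun t => (ncard_comp φ fun s => L s (φ t)).trans (h.2 _)⟩

theorem ExternallyConnected.pull {n : ℕ} (h : ExternallyConnected L n) :
    ExternallyConnected (fun a b => L (φ a) (φ b)) n := fun s t => by
  obtain ⟨p, hp, h0, h1⟩ := h (φ s) (φ t)
  exact ⟨fun i => φ.symm (p i), fun i => by simpa using hp i, by simp [h0], by simp [h1]⟩

theorem Rearrangeable.of_pull {n : ℕ} (h : Rearrangeable (fun a b => L (φ a) (φ b)) n) :
    Rearrangeable L n := by
  intro E _ src tgt hs ht
  obtain ⟨P, hP, hd⟩ := h E (fun e => φ.symm (src e)) (fun e => φ.symm (tgt e))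
    (fun s => by
      rw [ncard_comp φ fun t => L (φ s) t, ← hs]
      simp only [φ.symm_apply_eq])
    (fun t => by
      rw [ncard_comp φ fun s => L s (φ t), ← ht]
      simp only [φ.symm_apply_eq])
  refine ⟨fun e i => φ (P e i), fun e => ⟨(hP e).1, by simp [(hP e).2.1], by simp [(hP e).2.2]⟩,
    fun e e' hne i hi => hd e e' hne i ?_⟩
  simpa using hi

end transport

variable {k d : ℕ} [NeZero k]

/-- The double cover of the de Bruijn digraph in which only the loop at `0` changes sides. -/
def cover (k d : ℕ) [NeZero k] (a b : Bool × (Fin (d + 1) → Fin k)) : Prop :=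
  Fin.tail a.2 = Fin.init b.2 ∧ b.1 = xor a.1 (decide (a.2 = 0 ∧ b.2 = 0))

theorem cover_regular : IsRegular (cover k d) k := by
  constructor
  · rintro ⟨b, u⟩
    let f : Fin k → Bool × (Fin (d + 1) → Fin k) := fun a =>
      (xor b (decide (u = 0 ∧ Fin.snoc (α := fun _ => Fin k) (Fin.tail u) a = 0)),
        Fin.snoc (α := fun _ => Fin k) (Fin.tail u) a)
    have hf : Injective f := fun a a' h => by
      simpa [f] using congrArg (fun z => z.2 (Fin.last d)) h
    have : {t | cover k d (b, u) t} = Set.range f := by
      ext ⟨b', v⟩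
      constructor
      · rintro ⟨h1, h2⟩
        simp only at h1 h2
        refine ⟨v (Fin.last d), ?_⟩
        simp only [f, h1, Fin.snoc_init_self, h2]
      · rintro ⟨a, ha⟩
        rw [← ha]
        exact ⟨by simp [f], rfl⟩
    rw [this, Set.ncard_range_of_injective hf]
    simp
  · rintro ⟨b, v⟩
    let f : Fin k → Bool × (Fin (d + 1) → Fin k) := fun a =>
      (xor b (decide (Fin.cons (α := fun _ => Fin k) a (Fin.init v) = 0 ∧ v = 0)),
        Fin.cons (α := fun _ => Fin k) a (Fin.init v))
    have hf : Injective f := fun a a' h => by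
      simpa [f] using congrArg (fun z => z.2 0) h
    have : {s | cover k d s (b, v)} = Set.range f := by
      ext ⟨b', u⟩
      constructor
      · rintro ⟨h1, h2⟩
        simp only at h1 h2
        refine ⟨u 0, ?_⟩
        simp only [f, ← h1, Fin.cons_self_tail, h2]
        simp
      · rintro ⟨a, ha⟩
        rw [← ha]
        exact ⟨by simp [f], by simp [f]⟩
    rw [this, Set.ncard_range_of_injective hf]
    simp

theorem cover_connected (hk : 2 ≤ k) : ExternallyConnected (cover k d) (2 * (d + 1) + 3) := by
  rintro ⟨b, x⟩ ⟨b', y⟩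
  let one : Fin k := ⟨1, by omega⟩
  have hone : one ≠ 0 := by simp [one, Fin.ext_iff]
  let z : Fin k := if b = b' then one else 0
  let s : ℕ → Fin k := fun i =>
    if h : i < d + 1 then x ⟨i, h⟩ else if i = d + 1 then one else if i ≤ 2 * d + 3 then z
    else if i = 2 * d + 4 then one
    else if h : i - (2 * d + 5) < d + 1 then y ⟨i - (2 * d + 5), h⟩ else 0
  let v : ℕ → Fin (d + 1) → Fin k := fun i j => s (i + j)
  have hv : ∀ i, (v i = 0 ∧ v (i + 1) = 0) ↔ ∀ j, i ≤ j → j ≤ i + d + 1 → s j = 0 := by
    intro i
    constructor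
    · rintro ⟨h1, h2⟩ j hj1 hj2
      by_cases hj : j = i
      · simpa [v, hj] using congrFun h1 0
      · have := congrFun h2 ⟨j - (i + 1), by omega⟩
        simp only [v, Pi.zero_apply] at this
        rwa [show i + 1 + (j - (i + 1)) = j by omega] at this
    · intro h
      exact ⟨funext fun j => h _ (by omega) (by omega), funext fun j => h _ (by omega) (by omega)⟩
  have s1 : s (d + 1) = one := by simp [s]
  have s2 : s (2 * d + 4) = one := by
    simp only [s]
    rw [dif_neg (by omega), if_neg (by omega), if_neg (by omega), if_pos trivial]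
  have s3 : ∀ j, d + 2 ≤ j → j ≤ 2 * d + 3 → s j = z := fun j h1 h2 => by
    simp only [s]
    rw [dif_neg (by omega), if_neg (by omega), if_pos h2]
  refine ⟨fun i => (if i.val ≤ d + 2 then b else b', v i), fun i => ⟨?_, ?_⟩, ?_, ?_⟩
  · funext j
    simp only [Fin.tail, Fin.init, v, Fin.val_castSucc, Fin.val_succ]
    congr 1
    omega
  · simp only [Fin.val_castSucc, Fin.val_succ, hv]
    have hi := i.2
    rcases lt_trichotomy i.val (d + 2) with h | h | h
    · have : ¬ ∀ j, i.val ≤ j → j ≤ i.val + d + 1 → s j = 0 := fun h' =>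
        hone (s1 ▸ h' _ (by omega) (by omega))
      rw [if_pos (by omega), if_pos (by omega), decide_eq_false this, Bool.xor_false]
    · rw [if_neg (by omega), if_pos (by omega)]
      by_cases hb : b = b'
      · have : ¬ ∀ j, i.val ≤ j → j ≤ i.val + d + 1 → s j = 0 := fun h' => by
          have := h' (d + 2) (by omega) (by omega)
          rw [s3 _ le_rfl (by omega)] at this
          exact hone (by simpa [z, hb] using this)
        rw [decide_eq_false this, Bool.xor_false, hb]
      · have : ∀ j, i.val ≤ j → j ≤ i.val + d + 1 → s j = 0 := fun j h1 h2 => by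
          rw [s3 j (by omega) (by omega)]
          simp [z, hb]
        rw [decide_eq_true this]
        revert hb
        cases b <;> cases b' <;> simp
    · have : ¬ ∀ j, i.val ≤ j → j ≤ i.val + d + 1 → s j = 0 := fun h' =>
        hone (s2 ▸ h' _ (by omega) (by omega))
      rw [if_neg (by omega), if_neg (by omega), decide_eq_false this, Bool.xor_false]
  · refine Prod.ext (by simp) (funext fun j => ?_)
    simp only [v, s, Fin.val_zero, Nat.zero_add]
    rw [dif_pos j.2]
  · refine Prod.ext ?_ (funext fun j => ?_)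
    · simp only [Fin.val_last]
      rw [if_neg (by omega)]
    · have hj := j.2
      simp only [v, s, Fin.val_last]
      rw [dif_neg (by omega), if_neg (by omega), if_neg (by omega), if_neg (by omega),
        dif_pos (by omega)]
      congr 1
      ext
      simp only
      omega

theorem exists_switch {n : ℕ} (f : Fin (n + 1) → Bool) (h0 : f 0 = false)
    (h1 : f (Fin.last n) = true) : ∃ i : Fin n, f i.castSucc = false ∧ f i.succ = true := by
  by_contra h
  push Not at h
  have : ∀ i, f i = false := fun i => by
    induction i using Fin.induction with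
    | zero => exact h0
    | succ i ih => simpa using h i ih
  rw [this] at h1
  exact Bool.false_ne_true h1

theorem le_of_rearrangeable {n : ℕ} (h : Rearrangeable (cover k d) n) : k ^ (d + 2) ≤ n := by
  obtain ⟨P, hP, hd⟩ := h ((Bool × (Fin (d + 1) → Fin k)) × Fin k) (fun e => e.1)
    (fun e => (!e.1.1, e.1.2))
    (fun s => by
      rw [cover_regular.1]
      have : {e : (Bool × (Fin (d + 1) → Fin k)) × Fin k | e.1 = s}
          = Set.range fun a => (s, a) := by
        ext ⟨p, a⟩
        simp [eq_comm]
      rw [this, Set.ncard_range_of_injective (Prod.mk_right_injective s)]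
      simp)
    (fun t => by
      rw [cover_regular.2]
      have : {e : (Bool × (Fin (d + 1) → Fin k)) × Fin k | (!e.1.1, e.1.2) = t}
          = Set.range fun a => ((!t.1, t.2), a) := by
        ext ⟨⟨b, u⟩, a⟩
        obtain ⟨b', u'⟩ := t
        cases b <;> cases b' <;> simp [@eq_comm _ u' u]
      rw [this, Set.ncard_range_of_injective (Prod.mk_right_injective _)]
      simp)
  have key : ∀ q : (Fin (d + 1) → Fin k) × Fin k, ∃ i : Fin n,
      P ((false, q.1), q.2) i.castSucc = (false, 0) ∧ P ((false, q.1), q.2) i.succ = (true, 0) := by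
    intro q
    obtain ⟨h1, h2, h3⟩ := hP ((false, q.1), q.2)
    obtain ⟨i, h4, h5⟩ := exists_switch (fun i => (P ((false, q.1), q.2) i).1) (by simp [h2])
      (by simp [h3])
    have h6 := (h1 i).2
    simp only [h4, h5, Bool.false_xor, Bool.true_eq, decide_eq_true_eq] at h6
    exact ⟨i, Prod.ext h4 h6.1, Prod.ext h5 h6.2⟩
  choose g hg using key
  have hinj : Injective g := fun q q' hq => by
    by_contra hne
    refine hd ((false, q.1), q.2) ((false, q'.1), q'.2) (fun h => hne ?_) (g q) ?_
    · simp only [Prod.mk.injEq, true_and] at h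
      exact Prod.ext h.1 h.2
    · rw [(hg q).1, (hg q).2, hq, (hg q').1, (hg q').2]
  have := Fintype.card_le_of_injective g hinj
  simpa [pow_succ] using this

theorem main (k d : ℕ) (hk : 2 ≤ k) (hd : 1 ≤ d) :
    ∃ L : Fin (2 * k ^ d) → Fin (2 * k ^ d) → Prop, IsRegular L k ∧
      ExternallyConnected L (2 * d + 3) ∧ ∀ n, n < k ^ (d + 1) → ¬ Rearrangeable L n := by
  obtain ⟨d, rfl⟩ : ∃ d', d = d' + 1 := ⟨d - 1, by omega⟩
  have : NeZero k := ⟨by omega⟩
  let φ : Fin (2 * k ^ (d + 1)) ≃ Bool × (Fin (d + 1) → Fin k) :=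
    (Fintype.equivFinOfCardEq (by simp)).symm
  exact ⟨fun a b => cover k d (φ a) (φ b), cover_regular.pull φ _, (cover_connected hk).pull φ _,
    fun n hn h => absurd (le_of_rearrangeable (h.of_pull φ _)) (not_le.2 hn)⟩

end Pool.Agent.P.MP_dc8297_co
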