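import Pool.Agent.P.MP_dc8297_co.SEDef

/-!
Basic facts on shuffle-exchange graphs, and what a routing gives.
-/

open Finset

namespace Pool.Agent.P.MP_dc8297_co

theorem card_div {k Q a : ℕ} (hk : 0 < k) (ha : a < Q) :
    ((range (k * Q)).filter fun j => j / k = a).card = k := by
  have : (range (k * Q)).filter (fun j => j / k = a) = Ico (k * a) (k * a + k) := by
    ext j
    have h1 : k * (a + 1) ≤ k * Q := Nat.mul_le_mul_left k ha
    rw [mem_filter, mem_range, mem_Ico, Nat.div_eq_iff hk]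
    rw [mul_add, mul_one] at h1
    rw [mul_comm a k]
    omega
  rw [this, Nat.card_Ico, Nat.add_sub_cancel_left]

theorem card_mod {k Q a : ℕ} (ha : a < Q) :
    ((range (k * Q)).filter fun j => j % Q = a).card = k := by
  have hQ : 0 < Q := by omega
  symm
  rw [← card_range k]
  refine card_bij (fun c _ => a + Q * c) (fun c hc => ?_) (fun c _ c' _ h => ?_) fun j hj => ?_
  · have h1 : Q * (c + 1) ≤ Q * k := Nat.mul_le_mul_left Q (mem_range.1 hc)
    rw [card_range, mem_filter, mem_range, Nat.add_mul_mod_self_left, Nat.mod_eq_of_lt ha,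
      mul_comm k Q]
    rw [mul_add, mul_one] at h1
    exact ⟨by omega, rfl⟩
  · exact Nat.eq_of_mul_eq_mul_left hQ (Nat.add_left_cancel h)
  · rw [card_range, mem_filter, mem_range] at hj
    exact ⟨j / Q, mem_range.2 (Nat.div_lt_of_lt_mul (by rw [mul_comm]; exact hj.1)),
      by rw [← hj.2, Nat.mod_add_div]⟩

theorem ncard_fin (t : ℕ) (P : ℕ → Prop) [DecidablePred P] :
    {j : Fin t | P j}.ncard = ((range t).filter P).card := by
  rw [← Set.ncard_image_of_injective _ Fin.val_injective, ← Set.ncard_coe_finset]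
  congr 1
  ext j
  simp only [Set.mem_image, Set.mem_ofPred_eq, coe_filter, mem_range]
  exact ⟨fun ⟨i, h, e⟩ => e ▸ ⟨i.2, h⟩, fun ⟨h, h'⟩ => ⟨⟨j, h⟩, h', rfl⟩⟩

theorem rel_iff {k Q i j : ℕ} (hk : 0 < k) (hQ : 0 < Q) (hj : j < k * Q) :
    ((j : ℤ) - (k : ℤ) * (i : ℤ)) % ((k * Q : ℕ) : ℤ) < (k : ℤ) ↔ j / k = i % Q := by
  have ha := Nat.mod_lt i hQ
  have e : (j : ℤ) - (k : ℤ) * (i : ℤ) =
      ((j : ℤ) - ((k * (i % Q) : ℕ) : ℤ)) + ((k * Q : ℕ) : ℤ) * (-((i / Q : ℕ) : ℤ)) := by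
    have : (i : ℤ) = ((i % Q : ℕ) : ℤ) + (Q : ℤ) * ((i / Q : ℕ) : ℤ) := by
      exact_mod_cast (Nat.mod_add_div i Q).symm
    generalize i % Q = a at this ⊢
    generalize i / Q = b at this ⊢
    rw [this]
    push_cast
    ring
  have h1 : k * (i % Q + 1) ≤ k * Q := Nat.mul_le_mul_left k ha
  rw [mul_add, mul_one] at h1
  rw [e, Int.add_mul_emod_self_left, Nat.div_eq_iff hk, mul_comm (i % Q) k]
  generalize k * (i % Q) = x at h1 ⊢
  generalize k * Q = t at h1 hj ⊢
  rcases le_or_gt x j with h | h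
  · rw [Int.emod_eq_of_lt (by omega) (by omega)]
    omega
  · rw [← Int.add_emod_right, Int.emod_eq_of_lt (by omega) (by omega)]
    omega

variable {k d : ℕ}

theorem se_iff (hk : 0 < k) {i j : Fin (k ^ (d + 2 - 1))} :
    SE k (d + 2) i j ↔ (j : ℕ) / k = i % k ^ d := by
  have e : k ^ (d + 2 - 1) = k * k ^ d := pow_succ' k d
  rw [← rel_iff hk (pow_pos hk d) (j.2.trans_eq e), SE, ← e]

theorem se_regular (hk : 0 < k) : IsRegular (SE k (d + 2)) k := by
  have e : k ^ (d + 2 - 1) = k * k ^ d := pow_succ' k d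
  refine ⟨fun s => ?_, fun t => ?_⟩
  · simp only [se_iff hk]
    rw [ncard_fin _ fun j => j / k = s % k ^ d, congrArg range e,
      card_div hk (Nat.mod_lt _ (pow_pos hk d))]
  · simp only [se_iff hk, eq_comm (a := (t : ℕ) / k)]
    rw [ncard_fin _ fun i => i % k ^ d = t / k, congrArg range e,
      card_mod (Nat.div_lt_of_lt_mul (t.2.trans_eq e))]

theorem se_connected (hk : 0 < k) : ExternallyConnected (SE k (d + 2)) (d + 1) := by
  intro s t
  have hs : (s : ℕ) < k ^ (d + 1) := s.2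
  have ht : (t : ℕ) < k ^ (d + 1) := t.2
  refine ⟨fun i => ⟨(s * k ^ (i : ℕ) + t / k ^ (d + 1 - i)) % k ^ (d + 1),
    Nat.mod_lt _ (pow_pos hk _)⟩, fun i => (se_iff hk).2 ?_, Fin.ext ?_, Fin.ext ?_⟩
  · have hi : d + 1 - i = d + 1 - (i + 1) + 1 := by omega
    simp only [Fin.val_succ, Fin.val_castSucc]
    rw [pow_succ' k d, Nat.mod_mul_right_div_self, Nat.mod_mul_left_mod, hi, pow_succ k (_ - _),
      ← Nat.div_div_eq_div_mul, pow_succ, ← mul_assoc, add_comm, Nat.add_mul_div_right _ _ hk,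
      add_comm]
  · simp [Nat.div_eq_of_lt ht, Nat.mod_eq_of_lt hs]
  · simp [Nat.mod_eq_of_lt ht]

theorem Rearrangeable.succ {V : Type} [Finite V] {L : V → V → Prop} {n : ℕ} (hL : IsRegular L k)
    (h : Rearrangeable L n) : Rearrangeable L (n + 1) := by
  intro E _ src tgt hs ht
  have hφ : ∀ t, Nonempty ({e | tgt e = t} ≃ {s | L s t}) := fun t =>
    Finite.card_eq.1 (ht t)
  have φ := fun t => (hφ t).some
  let mid : E → V := fun e => φ (tgt e) ⟨e, rfl⟩
  have hm : ∀ t (e : {e | tgt e = t}), mid e = φ t e := by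
    rintro t ⟨e, rfl⟩
    rfl
  have hL' : ∀ e, L (mid e) (tgt e) := fun e => (φ (tgt e) ⟨e, rfl⟩).2
  have inj : ∀ e e', mid e = mid e' → tgt e = tgt e' → e = e' := fun e e' h1 h2 => by
    have := (φ (tgt e')).injective (Subtype.ext ((hm _ ⟨e, h2⟩).symm.trans h1))
    exact congrArg Subtype.val this
  obtain ⟨P, hP, hd⟩ := h E src mid hs fun v => by
    rw [hL.2, ← hL.1 v, ← Set.InjOn.ncard_image (f := tgt)
      fun e he e' he' => inj e e' (he.trans he'.symm)]
    congr 1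
    ext t
    refine ⟨?_, fun h => ⟨(φ t).symm ⟨v, h⟩, by rw [Set.mem_ofPred_eq, hm]; simp,
      ((φ t).symm ⟨v, h⟩).2⟩⟩
    rintro ⟨e, rfl, rfl⟩
    exact hL' e
  refine ⟨fun e => Fin.snoc (P e) (tgt e), fun e => ⟨fun i => ?_, ?_, ?_⟩, fun e e' hne i => ?_⟩
  · refine Fin.lastCases ?_ (fun i => ?_) i
    · simpa [(hP e).2.2] using hL' e
    · simp only [Fin.succ_castSucc, Fin.snoc_castSucc]
      exact (hP e).1 i
  · rw [← Fin.castSucc_zero]
    simp only [Fin.snoc_castSucc]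
    exact (hP e).2.1
  · simp
  · refine Fin.lastCases ?_ (fun i => ?_) i
    · simp only [Fin.snoc_castSucc, Fin.succ_last, Fin.snoc_last, (hP _).2.2]
      exact fun h => hne (inj e e' (Prod.ext_iff.1 h).1 (Prod.ext_iff.1 h).2)
    · simp only [Fin.succ_castSucc, Fin.snoc_castSucc]
      exact hd e e' hne i

theorem Rearrangeable.mono {V : Type} [Finite V] {L : V → V → Prop} {m n : ℕ}
    (hL : IsRegular L k) (h : Rearrangeable L m) (hmn : m ≤ n) : Rearrangeable L n := by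
  induction hmn with
  | refl => exact h
  | step _ ih => exact ih.succ hL

/-- A walk in the shuffle-exchange graph. -/
def Wk (k d N : ℕ) (p : ℕ → ℕ) : Prop :=
  (∀ i ≤ N, p i < k ^ (d + 1)) ∧ ∀ i < N, p (i + 1) / k = p i % k ^ d

theorem Wk.div {N : ℕ} {p : ℕ → ℕ} (h : Wk k d N p) (i a b : ℕ) (hab : a + b = d + 1)
    (hN : i + a ≤ N) : p (i + a) / k ^ a = p i % k ^ b := by
  induction a generalizing b with
  | zero =>
    rw [pow_zero, Nat.div_one, add_zero, Nat.mod_eq_of_lt]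
    exact (h.1 i hN).trans_eq (by rw [← hab, zero_add])
  | succ a ih =>
    have e : k ^ d = k ^ a * k ^ b := by rw [← pow_add]; congr 1; omega
    rw [pow_succ', ← Nat.div_div_eq_div_mul, ← add_assoc, h.2 _ (by omega), e,
      Nat.mod_mul_right_div_self, ih (b + 1) (by omega) (by omega), pow_succ,
      Nat.mod_mul_right_mod]

theorem Wk.eq {N : ℕ} {p q : ℕ → ℕ} (hp : Wk k d N p) (hq : Wk k d N q) (i a b : ℕ)
    (hab : a + b = d + 1) (hN : i + a + b ≤ N) (h1 : p i % k ^ b = q i % k ^ b)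
    (h2 : p (i + a + b) / k ^ b = q (i + a + b) / k ^ b) : p (i + a) = q (i + a) := by
  rw [hp.div _ b a (by omega) hN, hq.div _ b a (by omega) hN] at h2
  rw [← hp.div i a b hab (by omega), ← hq.div i a b hab (by omega)] at h1
  rw [← Nat.div_add_mod (p (i + a)) (k ^ a), h1, h2, Nat.div_add_mod]

theorem Wk.edge {N : ℕ} {p q : ℕ → ℕ} (hp : Wk k d N p) (hq : Wk k d N q) (i a b : ℕ)
    (hab : a + b = d) (hN : i + (d + 1) ≤ N) (h1 : p i % k ^ (b + 1) = q i % k ^ (b + 1))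
    (h2 : p (i + (d + 1)) / k ^ b = q (i + (d + 1)) / k ^ b) :
    p (i + a) = q (i + a) ∧ p (i + a + 1) = q (i + a + 1) := by
  refine ⟨hp.eq hq i a (b + 1) (by omega) (by omega) h1 ?_,
    hp.eq hq i (a + 1) b (by omega) (by omega) ?_ ?_⟩
  · rw [show i + a + (b + 1) = i + (d + 1) by omega, pow_succ, ← Nat.div_div_eq_div_mul,
      ← Nat.div_div_eq_div_mul, h2]
  · rw [← Nat.mod_mul_right_mod (p i) (k ^ b) k, ← pow_succ, h1, pow_succ, Nat.mod_mul_right_mod]
  · rwa [show i + (a + 1) + b = i + (d + 1) by omega]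

theorem routing (hk : 0 < k) (h : Rearrangeable (SE k (d + 2)) (2 * (d + 1))) (E : Type)
    [Finite E] (src tgt : E → Fin (k ^ (d + 2 - 1))) (hs : ∀ v, {e | src e = v}.ncard = k)
    (ht : ∀ v, {e | tgt e = v}.ncard = k) : ∃ w : E → ℕ, (∀ e, w e < k ^ (d + 1)) ∧
      (∀ b ≤ d, ∀ e e', (src e : ℕ) % k ^ (b + 1) = src e' % k ^ (b + 1) →
        w e / k ^ b = w e' / k ^ b → e = e') ∧
      ∀ b ≤ d, ∀ e e', w e % k ^ (b + 1) = w e' % k ^ (b + 1) →
        (tgt e : ℕ) / k ^ b = tgt e' / k ^ b → e = e' := by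
  obtain ⟨P, hP, hd⟩ := h E src tgt (fun v => by rw [hs, (se_regular hk).1])
    fun v => by rw [ht, (se_regular hk).2]
  let p : E → ℕ → ℕ := fun e i => if h : i < 2 * (d + 1) + 1 then P e ⟨i, h⟩ else 0
  have hp : ∀ e i (h : i < 2 * (d + 1) + 1), p e i = P e ⟨i, h⟩ := fun e i h => dif_pos h
  have hW : ∀ e, Wk k d (2 * (d + 1)) (p e) := fun e => ⟨fun i hi => by
    rw [hp e i (by omega)]; exact (P e _).2, fun i hi => by
    rw [hp e i (by omega), hp e (i + 1) (by omega)]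
    exact (se_iff hk).1 ((hP e).1 ⟨i, hi⟩)⟩
  have h0 : ∀ e, p e 0 = src e := fun e => by
    rw [hp e 0 (by omega), ← (hP e).2.1]; rfl
  have h1 : ∀ e, p e (d + 1 + (d + 1)) = tgt e := fun e => by
    rw [← two_mul, hp e _ (by omega), ← (hP e).2.2]; rfl
  have key : ∀ e e' i, i < 2 * (d + 1) → p e i = p e' i ∧ p e (i + 1) = p e' (i + 1) → e = e' :=
    fun e e' i hi ⟨a, b⟩ => by
      by_contra hne
      rw [hp e i (by omega), hp e' i (by omega)] at a
      rw [hp e _ (by omega), hp e' _ (by omega)] at b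
      exact hd e e' hne ⟨i, hi⟩ (Prod.ext (Fin.ext a) (Fin.ext b))
  refine ⟨fun e => p e (d + 1), fun e => (hW e).1 _ (by omega), fun b hb e e' a1 a2 => ?_,
    fun b hb e e' a1 a2 => ?_⟩
  · refine key e e' (0 + (d - b)) (by omega)
      ((hW e).edge (hW e') 0 (d - b) b (by omega) (by omega) ?_ ?_)
    · rwa [h0, h0]
    · rwa [zero_add]
  · refine key e e' (d + 1 + (d - b)) (by omega)
      ((hW e).edge (hW e') (d + 1) (d - b) b (by omega) (by omega) a1 ?_)
    rwa [h1, h1]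

end Pool.Agent.P.MP_dc8297_co
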