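import Pool.Agent.P.MP_dc8297_co.Defs

namespace Pool.Agent.P.MP_dc8297_co

/-- The 2-stage shuffle-exchange graph `SE(k,n)`: both classes are `0, …, t - 1` with
`t = k^(n-1)`, and `i` is joined to `j` when `(j - k i) mod t < k`. -/
def SE (k n : ℕ) (i j : Fin (k ^ (n - 1))) : Prop :=
  (((j : ℕ) : ℤ) - (k : ℤ) * ((i : ℕ) : ℤ)) % ((k ^ (n - 1) : ℕ) : ℤ) < (k : ℤ)

end Pool.Agent.P.MP_dc8297_co
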