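import Pool.Agent.P.MP_dc8297_co.SEBase

/-!
The two obstructions, in abstract form.
-/

open Finset

namespace Pool.Agent.P.MP_dc8297_co

section count

variable {E : Type} {K : Finset E} {f : E → ℕ} {N : ℕ}

theorem image_eq (hK : K.card = N) (hf : ∀ e ∈ K, f e < N)
    (inj : ∀ e ∈ K, ∀ e' ∈ K, f e = f e' → e = e') : K.image f = range N :=
  eq_of_subset_of_card_le (fun v hv => by
    obtain ⟨e, he, rfl⟩ := mem_image.1 hv
    exact mem_range.2 (hf e he)) (by
    rw [card_range, card_image_of_injOn fun e he e' he' => inj e he e' he', hK])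

theorem hit (hK : K.card = N) (hf : ∀ e ∈ K, f e < N)
    (inj : ∀ e ∈ K, ∀ e' ∈ K, f e = f e' → e = e') {v : ℕ} (hv : v < N) : ∃ e ∈ K, f e = v :=
  mem_image.1 (by rw [image_eq hK hf inj]; exact mem_range.2 hv)

theorem fib (hK : K.card = N) (hf : ∀ e ∈ K, f e < N)
    (inj : ∀ e ∈ K, ∀ e' ∈ K, f e = f e' → e = e') (P : ℕ → Prop) [DecidablePred P] :
    (K.filter fun e => P (f e)).card = ((range N).filter P).card := by
  rw [← image_eq hK hf inj, filter_image, card_image_of_injOn]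
  exact fun e he e' he' => inj e (mem_filter.1 he).1 e' (mem_filter.1 he').1

theorem card_blk {I C : Type} [Fintype I] [Fintype C] (σ : Equiv.Perm (I × C)) (P : I → Prop)
    [DecidablePred P] :
    (univ.filter fun e => P (σ e).1).card = (univ.filter P).card * Fintype.card C := by
  rw [← card_univ, ← card_product]
  exact card_equiv σ fun e => by simp

end count

theorem gadK {k g : ℕ} {C : Type} [Fintype C] [DecidableEq C] (c : C) (hC : Fintype.card C = k * g)
    (a0 a1 a2 : Fin k) (h01 : a0 ≠ a1) (h02 : a0 ≠ a2) (h12 : a1 ≠ a2) :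
    ∃ σ : Equiv.Perm ((Fin k × Fin k) × C), ∀ w : (Fin k × Fin k) × C → ℕ,
      (∀ e, w e < k * (k * g)) → (∀ e e', e.1.1 = e'.1.1 → w e = w e' → e = e') →
      (∀ e e', e.1 = e'.1 → w e / k = w e' / k → e = e') →
      (∀ e e', (σ e).1.1 = (σ e').1.1 → w e = w e' → e = e') →
      (∀ e e', (σ e).1 = (σ e').1 → w e % (k * g) = w e' % (k * g) → e = e') → False := by
  let τ : Equiv.Perm (Fin k × Fin k) := Equiv.swap (a0, a0) (a2, a0) * Equiv.swap (a0, a0) (a1, a0)
  let r : (Fin k × Fin k) × C := ((a0, a0), c)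
  let s : (Fin k × Fin k) × C := ((a2, a1), c)
  refine ⟨(Equiv.swap r s).trans (τ.prodCongr (Equiv.refl C)), fun w hw X1 X2 Y1 Y2 => ?_⟩
  set σ := (Equiv.swap r s).trans (τ.prodCongr (Equiv.refl C)) with hσ
  have t0 : τ (a0, a0) = (a1, a0) := by
    simp [τ, Equiv.swap_apply_def, h01.symm, h12]
  have t1 : τ (a1, a0) = (a2, a0) := by simp [τ]
  have t2 : ∀ x : Fin k × Fin k, x.2 ≠ a0 → τ x = x := fun x hx => by
    have : ∀ a, x ≠ (a, a0) := fun a h => hx (by rw [h])
    simp [τ, Equiv.swap_apply_of_ne_of_ne, this]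
  have sr : (σ r).1 = (a2, a1) := by simp [hσ, s, t2 (a2, a1) h01.symm]
  have ss : (σ s).1 = (a1, a0) := by simp [hσ, r, t0]
  have so : ∀ e, e ≠ r → e ≠ s → (σ e).1 = τ e.1 := fun e h1 h2 => by
    simp [hσ, Equiv.swap_apply_of_ne_of_ne h1 h2]
  have hk : 0 < k := a0.pos
  have hQ : 0 < k * g := hC ▸ Fintype.card_pos_iff.2 ⟨c⟩
  have lay : ∀ (π : Equiv.Perm ((Fin k × Fin k) × C)) (a : Fin k),
      (univ.filter fun e => (π e).1.1 = a).card = k * (k * g) := fun π a => by
    rw [card_blk π fun x => x.1 = a, hC]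
    congr 1
    have : (univ.filter fun x : Fin k × Fin k => x.1 = a) = {a} ×ˢ univ := by
      ext x; rw [mem_product]; simp
    simp [this]
  have pig : ∀ (G : Finset ((Fin k × Fin k) × C)) (φ : (Fin k × Fin k) × C → Fin k), G.card = k →
      (∀ e ∈ G, φ e ≠ a0) → (∀ e ∈ G, ∀ e' ∈ G, φ e = φ e' → e = e') → False :=
    fun G φ h1 h2 h3 => by
      have := card_le_card_of_injOn (s := G) (t := univ.erase a0) φ
        (fun e he => by simpa using h2 e he) fun e he e' he' => h3 e he e' he'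
      rw [card_erase_of_mem (mem_univ _), card_univ, Fintype.card_fin] at this
      omega
  have ns : ∀ e : (Fin k × Fin k) × C, e.1.1 ≠ a2 → e ≠ s := fun e h h' => h (by rw [h'])
  have A : w r % (k * g) = w s % (k * g) := by
    by_contra hne
    have h1 := (fib (lay 1 a0) (fun e _ => hw e) (fun e he e' he' => X1 e e'
      ((mem_filter.1 he).2.trans (mem_filter.1 he').2.symm)) (· % (k * g) = w s % (k * g))).trans
      (card_mod (Nat.mod_lt _ hQ))
    have mem : ∀ e ∈ (univ.filter fun e : (Fin k × Fin k) × C => e.1.1 = a0).filter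
        fun e => w e % (k * g) = w s % (k * g), e.1.1 = a0 ∧ w e % (k * g) = w s % (k * g) ∧
          e ≠ r ∧ e ≠ s := fun e he => by
      have a : e.1.1 = a0 := (mem_filter.1 (mem_filter.1 he).1).2
      have b := (mem_filter.1 he).2
      exact ⟨a, b, fun h => hne (h ▸ b), ns e (a ▸ h02)⟩
    have nz : ∀ e ∈ (univ.filter fun e : (Fin k × Fin k) × C => e.1.1 = a0).filter
        fun e => w e % (k * g) = w s % (k * g), e.1.2 ≠ a0 := fun e he h => by
      obtain ⟨a, b, c1, c2⟩ := mem e he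
      exact c2 (Y2 e s (by rw [so e c1 c2, ss, ← t0, show e.1 = (a0, a0) from Prod.ext a h]) b)
    refine pig _ (fun e => e.1.2) h1 nz fun e he e' he' h => ?_
    obtain ⟨a, b, c1, c2⟩ := mem e he
    obtain ⟨a', b', c1', c2'⟩ := mem e' he'
    exact Y2 e e' (by
      rw [so e c1 c2, so e' c1' c2', show e.1 = e'.1 from Prod.ext (a.trans a'.symm) h])
      (b.trans b'.symm)
  have B : w s / k = w r / k := by
    by_contra hne
    have h1 := (fib (lay σ a1) (fun e _ => hw e) (fun e he e' he' => Y1 e e'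
      ((mem_filter.1 he).2.trans (mem_filter.1 he').2.symm)) (· / k = w r / k)).trans
      (card_div hk (Nat.div_lt_of_lt_mul (hw r)))
    have mem : ∀ e ∈ (univ.filter fun e => (σ e).1.1 = a1).filter
        fun e => w e / k = w r / k, (σ e).1.1 = a1 ∧ w e / k = w r / k ∧
          e ≠ r ∧ e ≠ s := fun e he => by
      have a := (mem_filter.1 (mem_filter.1 he).1).2
      have b := (mem_filter.1 he).2
      exact ⟨a, b, fun h => h12 (by rw [← a, h, sr]), fun h => hne (h ▸ b)⟩
    refine pig _ (fun e => (σ e).1.2) h1 (fun e he h => ?_) fun e he e' he' h => ?_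
    · obtain ⟨a, b, c1, c2⟩ := mem e he
      exact c1 (X2 e r (τ.injective (by rw [← so e c1 c2, t0]; exact Prod.ext a h)) b)
    · obtain ⟨a, b, c1, c2⟩ := mem e he
      obtain ⟨a', b', c1', c2'⟩ := mem e' he'
      exact X2 e e' (τ.injective (by
        rw [← so e c1 c2, ← so e' c1' c2']; exact Prod.ext (a.trans a'.symm) h))
        (b.trans b'.symm)
  have W : w s = w r := by
    rw [← Nat.div_add_mod (w s) k, ← Nat.div_add_mod (w r) k, B, ← Nat.mod_mul_right_mod (w s) k g,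
      ← A, Nat.mod_mul_right_mod]
  obtain ⟨e, he, h⟩ := hit (lay 1 a1) (fun e _ => hw e) (fun e he e' he' => X1 e e'
    ((mem_filter.1 he).2.trans (mem_filter.1 he').2.symm)) (hw s)
  have a : e.1.1 = a1 := (mem_filter.1 he).2
  have c1 : e ≠ r := fun h' => h01 (by rw [← a, h'])
  have c2 : e ≠ s := ns e (a ▸ h12)
  by_cases h0 : e.1.2 = a0
  · exact c1 (Y1 e r (by rw [so e c1 c2, sr, show e.1 = (a1, a0) from Prod.ext a h0, t1]) (h.trans W))
  · exact c2 (Y1 e s (by rw [so e c1 c2, ss, t2 _ h0, a]) h)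

theorem flip_mod {M x x' y y' : ℕ} (h : x % (2 * M) = x' % (2 * M)) (h1 : y / 2 = x / 2)
    (h2 : y ≠ x) (h3 : y' / 2 = x' / 2) (h4 : y' ≠ x') : y % (2 * M) = y' % (2 * M) := by
  rw [Nat.mod_mul, Nat.mod_mul] at h ⊢
  rw [h1, h3]
  generalize x / 2 % M = a at h ⊢
  generalize x' / 2 % M = b at h ⊢
  omega

/-- The order of the blocks on the target side. -/
def ly : Equiv.Perm (Fin 8) :=
  ⟨![1, 2, 3, 6, 4, 0, 5, 7], ![5, 0, 1, 2, 4, 6, 3, 7], by decide, by decide⟩

theorem gad2 {h : ℕ} {C : Type} [Fintype C] [DecidableEq C] (c : C) (hC : Fintype.card C = 4 * h)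
    (w : Fin 8 × C → ℕ) (hw : ∀ e, w e < 16 * h) (y : Fin 8 × C → ℕ)
    (hy : ∀ e, y e = ly (Equiv.swap (0, c) (2, c) e).1)
    (X1 : ∀ e e', (e.1 : ℕ) % 2 = e'.1 % 2 → w e = w e' → e = e')
    (X2 : ∀ e e', (e.1 : ℕ) % 4 = e'.1 % 4 → w e / 2 = w e' / 2 → e = e')
    (X3 : ∀ e e', e.1 = e'.1 → w e / 4 = w e' / 4 → e = e')
    (Y1 : ∀ e e', y e / 4 = y e' / 4 → w e = w e' → e = e')
    (Y2 : ∀ e e', y e / 2 = y e' / 2 → w e % (8 * h) = w e' % (8 * h) → e = e')
    (Y3 : ∀ e e', y e = y e' → w e % (4 * h) = w e' % (4 * h) → e = e') : False := by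
  have hh : 0 < h := by
    have := Fintype.card_pos_iff.2 ⟨c⟩
    omega
  have yb : y (0, c) = 3 := by rw [hy, Equiv.swap_apply_left]; rfl
  have yt : y (2, c) = 1 := by rw [hy, Equiv.swap_apply_right]; rfl
  have yo : ∀ e, e ≠ (0, c) → e ≠ (2, c) → y e = ly e.1 := fun e h1 h2 => by
    rw [hy, Equiv.swap_apply_of_ne_of_ne h1 h2]
  have yfix : ∀ e : Fin 8 × C, e.1 ≠ 0 → e.1 ≠ 2 → y e = ly e.1 := fun e h1 h2 =>
    yo e (fun h' => h1 (by rw [h'])) fun h' => h2 (by rw [h'])
  have ybt : ∀ e : Fin 8 × C, e.1 = 0 ∨ e.1 = 2 → y e / 4 = 0 := fun e he => by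
    by_cases h1 : e = (0, c)
    · rw [h1, yb]
    by_cases h2 : e = (2, c)
    · rw [h2, yt]
    rw [yo e h1 h2]
    rcases he with he | he <;> rw [he] <;> rfl
  have cl : ∀ (P : Fin 8 → Prop) [DecidablePred P],
      (univ.filter fun e : Fin 8 × C => P e.1).card = (univ.filter P).card * (4 * h) :=
    fun P _ => hC ▸ card_blk 1 P
  have s1 : ∀ e e' : Fin 8 × C, e.1 = 0 ∨ e.1 = 2 → e'.1 = 0 ∨ e'.1 = 2 → w e / 2 = w e' / 2 →
      e = e' := fun e e' he he' hh2 => by
    obtain ⟨f, hf, hv⟩ := hit (f := fun e => w e / 2) (N := 8 * h)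
      ((cl fun i => (i : ℕ) % 4 = 1).trans (by
        rw [show (univ.filter fun i : Fin 8 => (i : ℕ) % 4 = 1).card = 2 by decide]; omega))
      (fun e _ => by have := hw e; omega) (fun e he e' he' => X2 e e'
        ((mem_filter.1 he).2.trans (mem_filter.1 he').2.symm)) (v := w e / 2)
      (by have := hw e; omega)
    have f1 := (mem_filter.1 hf).2
    have f2 : ∀ i : Fin 8, (i : ℕ) % 4 = 1 → i ≠ 0 ∧ i ≠ 2 ∧ (ly i : ℕ) / 4 = 0 := by decide
    obtain ⟨b1, b2, b3⟩ := f2 _ f1
    rw [← yfix f b1 b2] at b3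
    have n1 : w f ≠ w e := fun q => by
      have := Y1 f e (b3.trans (ybt e he).symm) q
      subst this
      tauto
    have n2 : w f ≠ w e' := fun q => by
      have := Y1 f e' (b3.trans (ybt e' he').symm) q
      subst this
      tauto
    exact Y1 e e' ((ybt e he).trans (ybt e' he').symm) (by omega)
  have s2 : ∀ e : Fin 8 × C, e.1 = 0 ∨ e.1 = 2 → ∃ f : Fin 8 × C, w f / 2 = w e / 2 ∧ w f ≠ w e ∧
      y f / 2 = 2 ∧ (e.1 = 0 → y f = 5) := fun e he => by
    obtain ⟨f, hf, hv⟩ := hit (f := w) (N := 16 * h)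
      ((cl fun i => (i : ℕ) % 2 = 0).trans (by
        rw [show (univ.filter fun i : Fin 8 => (i : ℕ) % 2 = 0).card = 4 by decide]; omega))
      (fun e _ => hw e) (fun e he e' he' => X1 e e'
        ((mem_filter.1 he).2.trans (mem_filter.1 he').2.symm))
      (v := 2 * (w e / 2) + (1 - w e % 2)) (by have := hw e; omega)
    have f1 := (mem_filter.1 hf).2
    have a1 : w f / 2 = w e / 2 := by omega
    have a2 : w f ≠ w e := by omega
    have a3 : ¬ (f.1 = 0 ∨ f.1 = 2) := fun q => a2 (by rw [s1 f e q he a1])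
    have f2 : ∀ i : Fin 8, (i : ℕ) % 2 = 0 → ¬ (i = 0 ∨ i = 2) →
      (ly i : ℕ) / 2 = 2 ∧ ((i : ℕ) % 4 ≠ 0 → (ly i : ℕ) = 5) := by decide
    refine ⟨f, a1, a2, ?_, fun q => ?_⟩
    · rw [yfix f (fun q => a3 (Or.inl q)) fun q => a3 (Or.inr q)]
      exact (f2 _ f1 a3).1
    · rw [yfix f (fun q => a3 (Or.inl q)) fun q => a3 (Or.inr q)]
      exact (f2 _ f1 a3).2 fun q' => a2 (by rw [X2 f e (by rw [q', q]; rfl) a1])
  have s3 : w (0, c) % (8 * h) ≠ w (2, c) % (8 * h) := fun q => by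
    obtain ⟨f, a1, a2, a3, -⟩ := s2 (0, c) (Or.inl rfl)
    obtain ⟨f', b1, b2, b3, -⟩ := s2 (2, c) (Or.inr rfl)
    have e8 : 8 * h = 2 * (4 * h) := by omega
    have := Y2 f f' (a3.trans b3.symm) (by rw [e8] at q ⊢; exact flip_mod q a1 a2 b1 b2)
    subst this
    simpa using s1 (0, c) (2, c) (Or.inl rfl) (Or.inr rfl) (a1.symm.trans b1)
  have one : ∀ j : Fin 8, (univ.filter fun e : Fin 8 × C => e.1 = j).card = 4 * h := fun j => by
    rw [cl fun i => i = j, filter_eq', if_pos (mem_univ _), card_singleton, one_mul]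
  have s4 : w (0, c) % (4 * h) = w (2, c) % (4 * h) := by
    obtain ⟨e, he, hv⟩ := hit (f := fun e => w e % (4 * h)) (one 0)
      (fun e _ => Nat.mod_lt _ (by omega)) (fun e he e' he' q => by
        have p1 := (mem_filter.1 he).2
        have p2 := (mem_filter.1 he').2
        obtain ⟨f, a1, a2, -, a3⟩ := s2 e (Or.inl p1)
        obtain ⟨f', b1, b2, -, b3⟩ := s2 e' (Or.inl p2)
        have e4 : 4 * h = 2 * (2 * h) := by omega
        have := Y3 f f' ((a3 p1).trans (b3 p2).symm)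
          (by rw [e4] at q ⊢; exact flip_mod q a1 a2 b1 b2)
        subst this
        exact s1 e e' (Or.inl p1) (Or.inl p2) (a1.symm.trans b1))
      (v := w (2, c) % (4 * h)) (Nat.mod_lt _ (by omega))
    have p1 := (mem_filter.1 he).2
    by_cases h1 : e = (0, c)
    · rwa [h1] at hv
    have h2 : e ≠ (2, c) := fun q => by simp [q] at p1
    exact absurd (Y3 e (2, c) (by rw [yo e h1 h2, yt, p1]; rfl) hv) h2
  have e8 : 8 * h = 4 * h * 2 := by omega
  have hne : w (0, c) / (4 * h) % 2 ≠ w (2, c) / (4 * h) % 2 := fun q =>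
    s3 (by rw [e8, Nat.mod_mul (a := 4 * h), Nat.mod_mul (a := 4 * h), s4, q])
  set v := w (2, c) / (4 * h) % 2 with hv
  have cx : ∀ j : Fin 8, ((univ.filter fun e : Fin 8 × C => e.1 = j).filter
      fun e => w e / (4 * h) % 2 = v).card =
      ((range (4 * h)).filter fun u => u / h % 2 = v).card := fun j => by
    rw [← fib (f := fun e => w e / 4) (one j) (fun e _ => by have := hw e; omega)
      (fun e he e' he' => X3 e e' ((mem_filter.1 he).2.trans (mem_filter.1 he').2.symm))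
      fun u => u / h % 2 = v]
    simp only [Nat.div_div_eq_div_mul]
  have cy : ((univ.filter fun e : Fin 8 × C => y e / 2 = 0).filter
      fun e => w e / (4 * h) % 2 = v).card = 4 * h := by
    have k1 : (univ.filter fun e : Fin 8 × C => y e / 2 = 0).card = 4 * h * 2 := by
      simp only [hy]
      rw [card_blk _ fun i => (ly i : ℕ) / 2 = 0, hC,
        show (univ.filter fun i : Fin 8 => (ly i : ℕ) / 2 = 0).card = 2 by decide, mul_comm]
    refine Eq.trans ?_ (card_div (k := 4 * h) (Q := 2) (a := v) (by omega) (Nat.mod_lt _ two_pos))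
    rw [← fib (f := fun e => w e % (4 * h * 2)) k1 (fun e _ => Nat.mod_lt _ (by omega))
      (fun e he e' he' q => Y2 e e' ((mem_filter.1 he).2.trans (mem_filter.1 he').2.symm)
        (by rwa [e8])) fun u => u / (4 * h) = v]
    simp only [Nat.mod_mul_right_div_self]
  have un : ((univ.filter fun e : Fin 8 × C => y e / 2 = 0).filter
      fun e => w e / (4 * h) % 2 = v) = insert (2, c)
      (((univ.filter fun e : Fin 8 × C => e.1 = 0).filter fun e => w e / (4 * h) % 2 = v) ∪
        (univ.filter fun e : Fin 8 × C => e.1 = 5).filter fun e => w e / (4 * h) % 2 = v) := by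
    ext e
    simp only [mem_filter, mem_univ, true_and, mem_insert, mem_union]
    by_cases h1 : e = (0, c)
    · simp [h1, yb, hne]
    by_cases h2 : e = (2, c)
    · simp [h2, yt, hv]
    have f2 : ∀ i : Fin 8, (ly i : ℕ) / 2 = 0 ↔ i = 0 ∨ i = 5 := by decide
    rw [yo e h1 h2, f2]
    tauto
  rw [un, card_insert_of_notMem (by simp), card_union_of_disjoint (by
    rw [disjoint_left]
    intro e h1 h2
    have := (mem_filter.1 (mem_filter.1 h1).1).2.symm.trans (mem_filter.1 (mem_filter.1 h2).1).2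
    simp at this), cx, cx] at cy
  omega

end Pool.Agent.P.MP_dc8297_co
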