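import Pool.Agent.P.MP_dc8297_co.SEGad

/-!
Shuffle-exchange graphs that violate the inequality of Benes.
-/

open Finset

namespace Pool.Agent.P.MP_dc8297_co

theorem ncard_fib {E V : Type} {k : ℕ} (ψ : E ≃ V × Fin k) (v : V) :
    {e | (ψ e).1 = v}.ncard = k := by
  have : {e | (ψ e).1 = v} = Set.range fun c => ψ.symm (v, c) := by
    ext e
    refine ⟨fun h => ⟨(ψ e).2, by rw [← show (ψ e).1 = v from h]; simp⟩, ?_⟩
    rintro ⟨c, rfl⟩
    simp
  rw [this, Set.ncard_range_of_injective fun a b h => by simpa using h]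
  simp

theorem blocks {k d s B g : ℕ} (hk : 0 < k) (hB : B = k ^ s) (hg : g = k ^ (d + 1 - s))
    (hs : s ≤ d + 1) (h : Rearrangeable (SE k (d + 2)) (2 * (d + 1))) {I : Type} [Finite I]
    (lx lz : I ≃ Fin B) (σ : Equiv.Perm (I × (Fin g × Fin k))) :
    ∃ w : I × (Fin g × Fin k) → ℕ, (∀ e, w e < k ^ (d + 1)) ∧
      (∀ b < s, ∀ e e', (lx e.1 : ℕ) % k ^ (b + 1) = lx e'.1 % k ^ (b + 1) →
        w e / k ^ b = w e' / k ^ b → e = e') ∧
      ∀ a < s, ∀ e e', (lz (σ e).1 : ℕ) / k ^ a = lz (σ e').1 / k ^ a →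
        w e % k ^ (d + 1 - s + a + 1) = w e' % k ^ (d + 1 - s + a + 1) → e = e' := by
  have e1 : g * B = k ^ (d + 2 - 1) := by
    rw [hB, hg, ← pow_add]; congr 1; omega
  have e2 : B * g = k ^ (d + 2 - 1) := (mul_comm _ _).trans e1
  let ψ : I × (Fin g × Fin k) ≃ Fin (k ^ (d + 2 - 1)) × Fin k :=
    (Equiv.prodAssoc _ _ _).symm.trans (Equiv.prodCongr ((Equiv.prodCongr lx (Equiv.refl _)).trans
      ((Equiv.prodComm _ _).trans (finProdFinEquiv.trans (finCongr e1)))) (Equiv.refl _))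
  let χ : I × (Fin g × Fin k) ≃ Fin (k ^ (d + 2 - 1)) × Fin k :=
    (Equiv.prodAssoc _ _ _).symm.trans (Equiv.prodCongr ((Equiv.prodCongr lz (Equiv.refl _)).trans
      (finProdFinEquiv.trans (finCongr e2))) (Equiv.refl _))
  have hψ : ∀ e, ((ψ e).1 : ℕ) = lx e.1 + B * e.2.1 := fun _ => rfl
  have hχ : ∀ e, ((χ e).1 : ℕ) = e.2.1 + g * lz e.1 := fun _ => rfl
  obtain ⟨w, hw, hX, hY⟩ := routing hk h _ (fun e => (ψ e).1) (fun e => ((σ.trans χ) e).1)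
    (ncard_fib ψ) (ncard_fib _)
  refine ⟨w, hw, fun b hb e e' h1 => hX b (by omega) e e' ?_,
    fun a ha e e' h1 h2 => hY (d + 1 - s + a) (by omega) e e' h2 ?_⟩
  · obtain ⟨c, hc⟩ : k ^ (b + 1) ∣ B := hB ▸ pow_dvd_pow k hb
    have q : ∀ x z : ℕ, (x + B * z) % k ^ (b + 1) = x % k ^ (b + 1) := fun x z => by
      rw [hc, mul_assoc, Nat.add_mul_mod_self_left]
    rw [hψ, hψ, q, q, h1]
  · have g0 : 0 < g := hg ▸ pow_pos hk _
    have q : ∀ (x : Fin g) (z : ℕ), (x + g * z) / k ^ (d + 1 - s + a) = z / k ^ a := fun x z => by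
      rw [pow_add, ← hg, ← Nat.div_div_eq_div_mul, Nat.add_mul_div_left _ _ g0,
        Nat.div_eq_of_lt x.2, zero_add]
    simp only [Equiv.trans_apply]
    rw [hχ, hχ, q, q, h1]

theorem not_big {k d : ℕ} (hk : 3 ≤ k) : ¬ Rearrangeable (SE k (d + 1 + 2)) (2 * (d + 1 + 1)) := by
  intro h
  have k0 : 0 < k := by omega
  obtain ⟨σ, hσ⟩ := gadK (k := k) (g := k ^ d) (C := Fin (k ^ d) × Fin k)
    (⟨0, pow_pos k0 d⟩, ⟨0, k0⟩) (by simp [mul_comm]) ⟨0, k0⟩ ⟨1, by omega⟩ ⟨2, by omega⟩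
    (by simp) (by simp) (by simp)
  obtain ⟨w, hw, hX, hY⟩ := blocks (s := 2) (B := k * k) (g := k ^ d) k0 (pow_two k).symm rfl
    (by omega) h ((Equiv.prodComm _ _).trans finProdFinEquiv) finProdFinEquiv σ
  have p1 : k ^ (d + 1 + 1) = k * (k * k ^ d) := by ring
  have p2 : d + 1 + 1 - 2 = d := rfl
  refine hσ w (fun e => p1 ▸ hw e) (fun e e' a b => hX 0 (by omega) e e' ?_ (by rw [b]))
    (fun e e' a b => hX 1 (by omega) e e' (by rw [a]) (by simpa using b))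
    (fun e e' a b => hY 1 (by omega) e e' ?_ (by rw [b]))
    fun e e' a b => hY 0 (by omega) e e' (by rw [a]) (by rwa [p2, add_zero, pow_succ'])
  · simp [a]
  · simp [Nat.add_mul_div_left _ _ k0, Nat.div_eq_of_lt, a]

theorem not_two {d : ℕ} : ¬ Rearrangeable (SE 2 (d + 3 + 2)) (2 * (d + 3 + 1)) := by
  intro h
  let c : Fin (2 * 2 ^ d) × Fin 2 := (⟨0, by positivity⟩, 0)
  have p2 : d + 3 + 1 - 3 = d + 1 := rfl
  obtain ⟨w, hw, hX, hY⟩ := blocks (s := 3) (B := 8) (g := 2 * 2 ^ d) two_pos rfl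
    (pow_succ' 2 d).symm (by omega) h (Equiv.refl _) ly (Equiv.swap (0, c) (2, c))
  rw [p2] at hY
  refine gad2 (h := 2 ^ d) c (by simp; ring) w (fun e => (hw e).trans_eq (by ring)) _
    (fun _ => rfl) (fun e e' a b => hX 0 (by omega) e e' a (by rw [b]))
    (fun e e' a b => hX 1 (by omega) e e' a b)
    (fun e e' a b => hX 2 (by omega) e e' (by rw [a]) b)
    (fun e e' a b => hY 2 (by omega) e e' a (by rw [b]))
    (fun e e' a b => hY 1 (by omega) e e' a ?_) fun e e' a b => hY 0 (by omega) e e' ?_ ?_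
  · rwa [show 2 ^ (d + 1 + 1 + 1) = 8 * 2 ^ d by ring]
  · rw [a]
  · rwa [show 2 ^ (d + 1 + 0 + 1) = 4 * 2 ^ d by ring]

theorem se_main (k n : ℕ) (hk : 2 ≤ k) (hn : 3 ≤ n) (h2 : k = 2 → 5 ≤ n) :
    IsRegular (SE k n) k ∧ ExternallyConnected (SE k n) (n - 1) ∧
      ∀ j ≤ 2 * (n - 1), ¬ Rearrangeable (SE k n) j := by
  have k0 : 0 < k := by omega
  obtain ⟨d, rfl⟩ : ∃ d, n = d + 1 + 2 := ⟨n - 3, by omega⟩
  refine ⟨se_regular k0, se_connected k0, fun j hj h => ?_⟩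
  have h' := h.mono (se_regular k0) hj
  rcases hk.eq_or_lt with rfl | hk
  · obtain ⟨e, rfl⟩ : ∃ e, d = e + 2 := ⟨d - 2, by omega⟩
    exact not_two h'
  · exact not_big hk h'

end Pool.Agent.P.MP_dc8297_co
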